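import Pool.Agent.Helper73.SM.Goals

/-!
# Project SM (MP_c307ca_nt), packet CLS
-/

set_option autoImplicit false

namespace Pool.Agent.Helper98.SM

open Finset Pool.Agent.Helper73.SM

theorem lf_ne {ξ : ℝ} (hξ : Irrational ξ) {v : ℤ × ℤ} (hv : v ≠ 0) : lf ξ v ≠ 0 := by
  intro h
  unfold lf at h
  by_cases h1 : v.1 = 0
  · rw [h1] at h
    simp only [Int.cast_zero, zero_mul, zero_add, Int.cast_eq_zero] at h
    exact hv (Prod.ext h1 h)
  · have h1' : (v.1 : ℝ) ≠ 0 := by exact_mod_cast h1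
    refine hξ ⟨-(v.2 : ℚ) / v.1, ?_⟩
    push_cast
    field_simp
    linarith

/-- the fraction in lowest terms -/
theorem lowest (p : ℤ) (q : ℕ) (hq : 0 < q) : ∃ (p' : ℤ) (q' : ℕ), 1 ≤ q' ∧ q' ≤ q ∧
    IsCoprime (q' : ℤ) (-p') ∧ (p : ℝ) / (q : ℝ) = (p' : ℝ) / (q' : ℝ) := by
  have hr := Rat.num_div_den ((p : ℚ) / (q : ℚ))
  refine ⟨((p : ℚ) / (q : ℚ)).num, ((p : ℚ) / (q : ℚ)).den, Rat.den_pos _, ?_, ?_, ?_⟩
  · have h1 : (((p : ℚ) / (q : ℚ)).den : ℤ) ∣ (q : ℤ) := by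
      have := Rat.den_dvd p (q : ℤ)
      rw [Rat.divInt_eq_div] at this
      exact_mod_cast this
    exact Nat.le_of_dvd hq (by exact_mod_cast h1)
  · have h1 := ((p : ℚ) / (q : ℚ)).reduced
    rw [IsCoprime.neg_right_iff, Int.isCoprime_iff_gcd_eq_one, Int.gcd_comm]
    exact h1
  · have : (((p : ℚ) / (q : ℚ) : ℚ) : ℝ) = ((((p : ℚ) / (q : ℚ)).num : ℚ) / (((p : ℚ) / (q : ℚ)).den : ℚ) : ℚ) := by
      rw [hr]
    push_cast at this
    exact this

/-- the size of `lam'` -/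
theorem lamB {ε c Q₁ q q' A : ℝ} {i : ℕ} (hε : 0 < ε) (hQ : 4 ≤ Q₁) (hQq : Q₁ ≤ q) (hc : 0 < c)
    (h0 : 0 < q') (hq' : q' ≤ q) (hqi : q' ≤ 2 ^ (i + 1)) (hiq : (2 : ℝ) ^ i ≤ q ^ 2)
    (hA : A = c * (q' / q) ^ 2 / Real.log q ^ (1 + ε)) : A ≤ c * sz ε Q₁ i := by
  have hq : 0 < q := by linarith
  have hlq : 0 < Real.log q := Real.log_pos (by linarith)
  have hm : 4 ≤ max ((2 : ℝ) ^ i) Q₁ := le_max_of_le_right hQ
  have hlm : 0 < Real.log (max ((2 : ℝ) ^ i) Q₁) := Real.log_pos (by linarith)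
  have h1 : Real.log (max ((2 : ℝ) ^ i) Q₁) ≤ 2 * Real.log q := by
    have h2 : max ((2 : ℝ) ^ i) Q₁ ≤ q ^ 2 := by
      apply max_le hiq
      nlinarith
    have h3 := Real.log_le_log (by linarith) h2
    rw [Real.log_pow] at h3
    exact_mod_cast h3
  have h2 : 1 / Real.log q ≤ 2 / Real.log (max ((2 : ℝ) ^ i) Q₁) := by
    rw [div_le_div_iff₀ hlq hlm]
    linarith
  have h3 : 1 / Real.log q ^ (1 + ε) ≤ (2 / Real.log (max ((2 : ℝ) ^ i) Q₁)) ^ (1 + ε) := by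
    have := Real.rpow_le_rpow (by positivity) h2 (by linarith : (0 : ℝ) ≤ 1 + ε)
    rw [Real.div_rpow (by norm_num) hlq.le, Real.one_rpow] at this
    exact this
  have h4 : (q' / q) ^ 2 ≤ min 1 (((2 : ℝ) ^ (i + 1) / Q₁) ^ 2) := by
    apply le_min
    · have : q' / q ≤ 1 := (div_le_one hq).mpr hq'
      have h5 : 0 ≤ q' / q := by positivity
      nlinarith
    · apply pow_le_pow_left₀ (by positivity)
      apply div_le_div₀ (by positivity) hqi (by linarith) hQq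
  have h5 : 0 < Real.log q ^ (1 + ε) := Real.rpow_pos_of_pos hlq _
  calc A = c * ((q' / q) ^ 2 * (1 / Real.log q ^ (1 + ε))) := by rw [hA]; ring
    _ ≤ c * (min 1 (((2 : ℝ) ^ (i + 1) / Q₁) ^ 2) *
        (2 / Real.log (max ((2 : ℝ) ^ i) Q₁)) ^ (1 + ε)) := by
        apply mul_le_mul_of_nonneg_left _ hc.le
        exact mul_le_mul h4 h3 (by positivity) (le_min (by norm_num) (by positivity))
    _ = c * sz ε Q₁ i := by unfold sz; ring

theorem goalCLS : StmtCLS := by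
  intro ε ξ t c Q₁ R H g p q hε hξ hξ2 hH ht htQ hc hcQ hg hxt hdt hQq hqR hbad
  have hHpos : (1 : ℝ) ≤ H := by exact_mod_cast hH
  have hQ4 : 4 ≤ Q₁ := by nlinarith
  have hq4 : (4 : ℝ) ≤ q := by linarith
  have hq0 : (0 : ℝ) < q := by linarith
  have hqN : 0 < q := by exact_mod_cast hq0
  -- entries
  unfold Pool.Agent.Helper73.SM.box at hg
  simp only [mem_product, mem_Icc] at hg
  obtain ⟨⟨⟨a1, a2⟩, ⟨a3, a4⟩⟩, ⟨⟨a5, a6⟩, ⟨a7, a8⟩⟩⟩ := hg
  have b1 : |(g.1.1 : ℝ)| ≤ H := abs_le.mpr ⟨by exact_mod_cast a1, by exact_mod_cast a2⟩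
  have b2 : |(g.1.2 : ℝ)| ≤ H := abs_le.mpr ⟨by exact_mod_cast a3, by exact_mod_cast a4⟩
  have b3 : |(g.2.1 : ℝ)| ≤ H := abs_le.mpr ⟨by exact_mod_cast a5, by exact_mod_cast a6⟩
  have b4 : |(g.2.2 : ℝ)| ≤ H := abs_le.mpr ⟨by exact_mod_cast a7, by exact_mod_cast a8⟩
  clear a1 a2 a3 a4 a5 a6 a7 a8
  -- the determinant
  have ht0 : 0 < t := by linarith
  have hn0 : 0 < |(dt g.1 g.2 : ℝ)| := lt_of_lt_of_le (by positivity) hdt
  have hdne : dt g.1 g.2 ≠ 0 := by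
    intro h
    rw [h] at hn0
    simp at hn0
  have hn1 : 1 ≤ |(dt g.1 g.2 : ℝ)| := by
    have := Int.one_le_abs hdne
    exact_mod_cast this
  set n : ℝ := |(dt g.1 g.2 : ℝ)| with hn
  have hg1 : g.1 ≠ 0 := by
    intro h
    apply hdne
    simp [dt, h]
  have hg2 : g.2 ≠ 0 := by
    intro h
    apply hdne
    simp [dt, h]
  have hy0 : lf ξ g.2 ≠ 0 := lf_ne hξ hg2
  have hid : (dt g.1 g.2 : ℝ) = g.1.1 * lf ξ g.2 - g.2.1 * lf ξ g.1 := by
    simp only [dt, lf]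
    push_cast
    ring
  have hx3 : |lf ξ g.1| ≤ 3 * H := by
    unfold lf
    calc |(g.1.1 : ℝ) * ξ + g.1.2| ≤ |(g.1.1 : ℝ) * ξ| + |(g.1.2 : ℝ)| := abs_add_le _ _
      _ = |(g.1.1 : ℝ)| * |ξ| + |(g.1.2 : ℝ)| := by rw [abs_mul]
      _ ≤ H * 2 + H := by
          apply add_le_add _ b2
          exact mul_le_mul b1 hξ2 (abs_nonneg _) (by linarith)
      _ = 3 * H := by ring
  have hy3 : |lf ξ g.2| ≤ 3 * H := by
    unfold lf
    calc |(g.2.1 : ℝ) * ξ + g.2.2| ≤ |(g.2.1 : ℝ) * ξ| + |(g.2.2 : ℝ)| := abs_add_le _ _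
      _ = |(g.2.1 : ℝ)| * |ξ| + |(g.2.2 : ℝ)| := by rw [abs_mul]
      _ ≤ H * 2 + H := by
          apply add_le_add _ b4
          exact mul_le_mul b3 hξ2 (abs_nonneg _) (by linarith)
      _ = 3 * H := by ring
  obtain ⟨p', q', hq1, hq'q, hcop, hfr⟩ := lowest p q hqN
  have hq'1 : (1 : ℝ) ≤ q' := by exact_mod_cast hq1
  have hq'0 : (0 : ℝ) < q' := by linarith
  have hq'qR : (q' : ℝ) ≤ q := by exact_mod_cast hq'q
  rw [hfr] at hbad
  set x : ℝ := lf ξ g.1 with hxdef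
  set y : ℝ := lf ξ g.2 with hydef
  -- logarithms
  have hL1 : 1 ≤ Real.log q := by
    rw [Real.le_log_iff_exp_le hq0]
    have := Real.exp_one_lt_d9
    linarith
  have hLe0 : 0 < Real.log (q : ℝ) ^ (1 + ε) := Real.rpow_pos_of_pos (by linarith) _
  have hcL : c / Real.log (q : ℝ) ^ (1 + ε) ≤ 1 := by
    rw [div_le_one hLe0]
    calc c ≤ Real.log Q₁ ^ ε := hcQ
      _ ≤ Real.log (q : ℝ) ^ ε := by
          apply Real.rpow_le_rpow (Real.log_nonneg (by linarith)) _ hε.le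
          exact Real.log_le_log (by linarith) hQq
      _ ≤ Real.log (q : ℝ) ^ (1 + ε) := Real.rpow_le_rpow_of_exponent_le hL1 (by linarith)
  have hcL0 : 0 < c / Real.log (q : ℝ) ^ (1 + ε) := by positivity
  obtain ⟨lam', hlam'⟩ : ∃ lam' : ℝ, lam' = c * ((q' : ℝ) / q) ^ 2 / Real.log (q : ℝ) ^ (1 + ε) :=
    ⟨_, rfl⟩
  have hl0 : 0 < lam' := by rw [hlam']; positivity
  have hleq : lam' / (q' : ℝ) ^ 2 = (c / Real.log (q : ℝ) ^ (1 + ε)) / (q : ℝ) ^ 2 := by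
    rw [hlam']
    field_simp
  have hl1 : lam' ≤ 1 := by
    have h1 : lam' = (c / Real.log (q : ℝ) ^ (1 + ε)) * ((q' : ℝ) / q) ^ 2 := by
      rw [hlam']; ring
    have h2 : ((q' : ℝ) / q) ^ 2 ≤ 1 := by
      apply pow_le_one₀ (by positivity)
      exact (div_le_one hq0).mpr hq'qR
    rw [h1]
    nlinarith [sq_nonneg ((q' : ℝ) / q)]
  have hfrac : |x / y - (p' : ℝ) / (q' : ℝ)| ≤ lam' / (q' : ℝ) ^ 2 := by
    rw [hleq]
    refine hbad.trans (le_of_eq ?_)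
    field_simp
  have ht4 : t ^ 4 ≤ (q : ℝ) ^ 2 := by
    have : t ^ 2 ≤ q := by linarith
    calc t ^ 4 = (t ^ 2) ^ 2 := by ring
      _ ≤ (q : ℝ) ^ 2 := pow_le_pow_left₀ (by positivity) this 2
  have hlt : lam' / (q' : ℝ) ^ 2 ≤ 1 / t ^ 4 := by
    rw [hleq, div_le_div_iff₀ (by positivity) (by positivity)]
    nlinarith
  have hlt' : lam' * t ^ 4 ≤ (q' : ℝ) ^ 2 := by
    rw [div_le_div_iff₀ (by positivity) (by positivity)] at hlt
    linarith
  have hlq1 : lam' / (q' : ℝ) ^ 2 ≤ 1 := by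
    rw [div_le_one (by positivity)]
    nlinarith
  -- `x / y`
  have hxy : |x / y| ≤ t := by
    rw [abs_div, div_le_iff₀ (abs_pos.mpr hy0)]
    exact hxt
  have hpq : |(p' : ℝ)| ≤ 2 * t * q' := by
    have h1 : |(p' : ℝ) / q'| ≤ t + 1 := by
      have h2 : (p' : ℝ) / q' = x / y - (x / y - (p' : ℝ) / q') := by ring
      rw [h2]
      calc |x / y - (x / y - (p' : ℝ) / q')| ≤ |x / y| + |x / y - (p' : ℝ) / q'| := abs_sub _ _
        _ ≤ t + 1 := by linarith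
    rw [abs_div, abs_of_pos hq'0, div_le_iff₀ hq'0] at h1
    nlinarith
  -- `m'`
  obtain ⟨m', hm'⟩ : ∃ m' : ℝ, m' = max |(p' : ℝ)| (q' : ℝ) := ⟨_, rfl⟩
  have hmp : |(p' : ℝ)| ≤ m' := by rw [hm']; exact le_max_left _ _
  have hmq : (q' : ℝ) ≤ m' := by rw [hm']; exact le_max_right _ _
  have hm1 : 1 ≤ m' := by linarith
  have hm0 : 0 < m' := by linarith
  have hm2 : m' ≤ 2 * t * q' := by
    rw [hm']
    apply max_le hpq
    nlinarith
  obtain ⟨i, hi1, hi2⟩ := exists_nat_pow_near hm1 (by norm_num : (1 : ℝ) < 2)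
  have hmqq : m' ≤ (q : ℝ) ^ 2 := by
    have h2t : 2 * t ≤ q := by nlinarith
    calc m' ≤ 2 * t * q' := hm2
      _ ≤ q * q := mul_le_mul h2t hq'qR hq'0.le hq0.le
      _ = (q : ℝ) ^ 2 := by ring
  have hlamc : lam' ≤ c * sz ε Q₁ i :=
    lamB hε hQ4 hQq hc hq'0 hq'qR (hmq.trans hi2.le) (hi1.trans hmqq) hlam'
  have hlam : lam' ≤ min 1 (c * sz ε Q₁ i) := le_min hl1 hlamc
  -- `M'`
  obtain ⟨M', hM'⟩ : ∃ M' : ℝ, M' = max |x| |y| := ⟨_, rfl⟩
  have hMx : |x| ≤ M' := by rw [hM']; exact le_max_left _ _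
  have hMy : |y| ≤ M' := by rw [hM']; exact le_max_right _ _
  have hM0 : 0 < M' := lt_of_lt_of_le (abs_pos.mpr hy0) hMy
  have hM3 : M' ≤ 3 * H := by rw [hM']; exact max_le hx3 hy3
  have hnM : n ≤ 2 * H * M' := by
    rw [hn, hid]
    calc |(g.1.1 : ℝ) * y - g.2.1 * x| ≤ |(g.1.1 : ℝ) * y| + |(g.2.1 : ℝ) * x| := abs_sub _ _
      _ = |(g.1.1 : ℝ)| * |y| + |(g.2.1 : ℝ)| * |x| := by rw [abs_mul, abs_mul]
      _ ≤ H * M' + H * M' := by
          apply add_le_add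
          · exact mul_le_mul b1 hMy (abs_nonneg _) (by linarith)
          · exact mul_le_mul b3 hMx (abs_nonneg _) (by linarith)
      _ = 2 * H * M' := by ring
  -- `j`
  obtain ⟨j, hj1, hj2⟩ := exists_nat_pow_near (x := 3 * (H : ℝ) / M')
    ((one_le_div hM0).mpr hM3) (by norm_num : (1 : ℝ) < 2)
  have hj1' : (2 : ℝ) ^ j * M' ≤ 3 * H := (le_div_iff₀ hM0).mp hj1
  have hj2' : 3 * H < (2 : ℝ) ^ (j + 1) * M' := (div_lt_iff₀ hM0).mp hj2
  have h2j : (0 : ℝ) < 2 ^ j := by positivity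
  have h2i : (0 : ℝ) < 2 ^ i := by positivity
  have hMj : M' ≤ 3 * H / 2 ^ j := by
    rw [le_div_iff₀ h2j]
    linarith
  -- the linear form of `z`
  have hz1 : |(q' : ℝ) * x - p' * y| ≤ lam' * |y| / q' := by
    have h1 : (q' : ℝ) * x - p' * y = (x / y - (p' : ℝ) / q') * (y * q') := by
      field_simp
    rw [h1, abs_mul, abs_mul, abs_of_pos hq'0]
    calc |x / y - (p' : ℝ) / q'| * (|y| * q') ≤ lam' / (q' : ℝ) ^ 2 * (|y| * q') :=
          mul_le_mul_of_nonneg_right hfrac (by positivity)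
      _ = lam' * |y| / q' := by field_simp
  have hym : |y| * m' ≤ 2 * M' * q' := by
    by_cases hcase : |(p' : ℝ)| ≤ q'
    · have : m' = q' := by rw [hm']; exact max_eq_right hcase
      rw [this]
      nlinarith
    · push Not at hcase
      have hmp' : m' = |(p' : ℝ)| := by rw [hm']; exact max_eq_left hcase.le
      have hp2 : 2 ≤ |(p' : ℝ)| := by
        have h1 : (1 : ℝ) < |(p' : ℝ)| := by linarith
        have h2 : (1 : ℤ) < |p'| := by exact_mod_cast h1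
        have h3 : (2 : ℤ) ≤ |p'| := h2
        exact_mod_cast h3
      have h1 : |(p' : ℝ)| / q' ≤ |x| / |y| + lam' / (q' : ℝ) ^ 2 := by
        have h2 : (p' : ℝ) / q' = x / y - (x / y - (p' : ℝ) / q') := by ring
        have h3 : |(p' : ℝ) / q'| ≤ |x / y| + |x / y - (p' : ℝ) / q'| := by
          nth_rewrite 1 [h2]
          exact abs_sub _ _
        rw [abs_div, abs_of_pos hq'0, abs_div] at h3
        linarith
      have h4 : lam' / (q' : ℝ) ^ 2 ≤ |(p' : ℝ)| / (2 * q') := by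
        rw [div_le_div_iff₀ (by positivity) (by positivity)]
        have h5 : 2 * (q' : ℝ) ≤ |(p' : ℝ)| * q' ^ 2 := by
          nlinarith [mul_le_mul hp2 hq'1 (by norm_num) (abs_nonneg (p' : ℝ))]
        nlinarith
      have h6 : |(p' : ℝ)| / (2 * q') ≤ |x| / |y| := by
        have h7 : |(p' : ℝ)| / q' = 2 * (|(p' : ℝ)| / (2 * q')) := by
          field_simp
        linarith
      rw [div_le_div_iff₀ (by positivity) (abs_pos.mpr hy0)] at h6
      rw [hmp']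
      nlinarith
  have hz2 : |(q' : ℝ) * x - p' * y| ≤ 2 * lam' * M' / m' := by
    refine hz1.trans ?_
    rw [div_le_div_iff₀ hq'0 hm0]
    nlinarith
  -- the first coordinate of `z`
  have hz0M : |(q' : ℝ) * g.1.1 - p' * g.2.1| * M' ≤ 2 * m' * n := by
    have hH1 : (H : ℝ) * |(q' : ℝ) * x - p' * y| ≤ m' * n := by
      have h1 : (H : ℝ) * |(q' : ℝ) * x - p' * y| ≤ H * (2 * lam' * M' / m') :=
        mul_le_mul_of_nonneg_left hz2 (by linarith)
      refine h1.trans ?_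
      rw [← mul_div_assoc, div_le_iff₀ hm0]
      have h2 : 6 * (H : ℝ) ^ 2 ≤ n * t ^ 4 := by
        rw [div_le_iff₀ (by positivity)] at hdt
        exact hdt
      have h3 : lam' * (6 * (H : ℝ) ^ 2) ≤ n * m' ^ 2 := by
        calc lam' * (6 * (H : ℝ) ^ 2) ≤ lam' * (n * t ^ 4) :=
              mul_le_mul_of_nonneg_left h2 hl0.le
          _ = n * (lam' * t ^ 4) := by ring
          _ ≤ n * (q' : ℝ) ^ 2 := mul_le_mul_of_nonneg_left hlt' hn0.le
          _ ≤ n * m' ^ 2 := by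
              apply mul_le_mul_of_nonneg_left _ hn0.le
              exact pow_le_pow_left₀ hq'0.le hmq 2
      have h4 : (H : ℝ) * M' ≤ 3 * (H : ℝ) ^ 2 := by nlinarith
      nlinarith [mul_le_mul_of_nonneg_left h4 hl0.le]
    rcases max_choice |x| |y| with hmax | hmax
    · rw [hM', hmax, ← abs_mul]
      have h1 : ((q' : ℝ) * g.1.1 - p' * g.2.1) * x =
          p' * (dt g.1 g.2 : ℝ) + g.1.1 * ((q' : ℝ) * x - p' * y) := by
        rw [hid]; ring
      rw [h1]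
      calc |(p' : ℝ) * (dt g.1 g.2 : ℝ) + g.1.1 * ((q' : ℝ) * x - p' * y)|
          ≤ |(p' : ℝ) * (dt g.1 g.2 : ℝ)| + |(g.1.1 : ℝ) * ((q' : ℝ) * x - p' * y)| :=
            abs_add_le _ _
        _ = |(p' : ℝ)| * n + |(g.1.1 : ℝ)| * |(q' : ℝ) * x - p' * y| := by
            rw [abs_mul, abs_mul]
        _ ≤ m' * n + H * |(q' : ℝ) * x - p' * y| := by
            apply add_le_add
            · exact mul_le_mul_of_nonneg_right hmp hn0.le
            · exact mul_le_mul_of_nonneg_right b1 (abs_nonneg _)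
        _ ≤ 2 * m' * n := by linarith
    · rw [hM', hmax, ← abs_mul]
      have h1 : ((q' : ℝ) * g.1.1 - p' * g.2.1) * y =
          q' * (dt g.1 g.2 : ℝ) + g.2.1 * ((q' : ℝ) * x - p' * y) := by
        rw [hid]; ring
      rw [h1]
      calc |(q' : ℝ) * (dt g.1 g.2 : ℝ) + g.2.1 * ((q' : ℝ) * x - p' * y)|
          ≤ |(q' : ℝ) * (dt g.1 g.2 : ℝ)| + |(g.2.1 : ℝ) * ((q' : ℝ) * x - p' * y)| :=
            abs_add_le _ _
        _ = (q' : ℝ) * n + |(g.2.1 : ℝ)| * |(q' : ℝ) * x - p' * y| := by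
            rw [abs_mul, abs_mul, abs_of_pos hq'0]
        _ ≤ m' * n + H * |(q' : ℝ) * x - p' * y| := by
            apply add_le_add
            · exact mul_le_mul_of_nonneg_right hmq hn0.le
            · exact mul_le_mul_of_nonneg_right b3 (abs_nonneg _)
        _ ≤ 2 * m' * n := by linarith
  refine ⟨i, j, ?_, ?_, hMx.trans hMj, hMy.trans hMj, hdne, ((q' : ℤ), -p'), hcop, ?_, ?_⟩
  · calc (2 : ℝ) ^ i ≤ m' := hi1
      _ ≤ 2 * t * q' := hm2
      _ ≤ 2 * t * R := by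
          apply mul_le_mul_of_nonneg_left _ (by linarith)
          linarith
  · have h1 : 1 ≤ 2 * H * M' := by linarith
    nlinarith [mul_le_mul_of_nonneg_left h1 h2j.le]
  · have h1 : (((cmb ((q' : ℤ), -p') g).1 : ℤ) : ℝ) = (q' : ℝ) * g.1.1 - p' * g.2.1 := by
      simp only [cmb]
      push_cast
      ring
    rw [h1, le_div_iff₀ (by positivity)]
    have h2 : 3 * (H : ℝ) / 2 ^ j ≤ 2 * M' := by
      rw [div_le_iff₀ h2j]
      rw [pow_succ] at hj2'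
      linarith
    have h3 : m' ≤ 2 * 2 ^ i := by
      rw [pow_succ] at hi2
      linarith
    calc |(q' : ℝ) * g.1.1 - p' * g.2.1| * (3 * (H : ℝ) / 2 ^ j)
        ≤ |(q' : ℝ) * g.1.1 - p' * g.2.1| * (2 * M') :=
          mul_le_mul_of_nonneg_left h2 (abs_nonneg _)
      _ = 2 * (|(q' : ℝ) * g.1.1 - p' * g.2.1| * M') := by ring
      _ ≤ 2 * (2 * m' * n) := by linarith
      _ = 4 * n * m' := by ring
      _ ≤ 4 * n * (2 * 2 ^ i) := mul_le_mul_of_nonneg_left h3 (by positivity)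
      _ = 8 * 2 ^ i * n := by ring
  · have h1 : lf ξ (cmb ((q' : ℤ), -p') g) = (q' : ℝ) * x - p' * y := by
      rw [hxdef, hydef]
      simp only [cmb, lf]
      push_cast
      ring
    rw [h1]
    refine hz2.trans ?_
    have h2 : 2 * lam' * M' ≤ 2 * min 1 (c * sz ε Q₁ i) * (3 * H / 2 ^ j) := by
      apply mul_le_mul _ hMj hM0.le
      · have : 0 < min 1 (c * sz ε Q₁ i) := lt_of_lt_of_le hl0 hlam
        linarith
      · linarith
    exact div_le_div₀ (by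
      have : 0 < min 1 (c * sz ε Q₁ i) := lt_of_lt_of_le hl0 hlam
      positivity) h2 h2i hi1

end Pool.Agent.Helper98.SM
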